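import Pool.Agent.Lib.MP_a31e1e_gt.Interfaces

/-!
# Module TRANS of project TIGHT (MP_a31e1e_gt)
-/

set_option autoImplicit false

open scoped ContDiff Topology
open Set Filter

namespace Pool.Agent.Tight.H7

/-! ### Curvature: germs, affine changes, periodicity, continuity -/

theorem D2_congr {X Y : E2 → E3} {a : E2} (h : X =ᶠ[𝓝 a] Y) (u v : E2) :
    D2 X a u v = D2 Y a u v := by
  unfold D2
  rw [h.fderiv.fderiv_eq]

theorem curv_congr {X Y : E2 → E3} {a : E2} (h : X =ᶠ[𝓝 a] Y) : curv X a = curv Y a := by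
  unfold curv sff
  simp only [D2_congr h, h.fderiv_eq]

theorem fderiv_affine (A : E3 →L[ℝ] E3) (a0 : E3) (B : E2 →L[ℝ] E2) (Y : E2 → E3) (b : E2)
    (hY : DifferentiableAt ℝ Y (B b)) :
    fderiv ℝ (fun b => a0 + A (Y (B b))) b = (A.comp (fderiv ℝ Y (B b))).comp B := by
  have h1 : HasFDerivAt (fun b => Y (B b)) ((fderiv ℝ Y (B b)).comp B) b :=
    hY.hasFDerivAt.comp b B.hasFDerivAt
  have h2 : HasFDerivAt (fun b => a0 + A (Y (B b))) (A.comp ((fderiv ℝ Y (B b)).comp B)) b :=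
    (A.hasFDerivAt.comp b h1).const_add a0
  rw [h2.fderiv]
  rfl

theorem D2_affine (A : E3 →L[ℝ] E3) (a0 : E3) (B : E2 →L[ℝ] E2) (Y : E2 → E3) (b : E2)
    (hY : ContDiffAt ℝ 2 Y (B b)) (u v : E2) :
    D2 (fun b => a0 + A (Y (B b))) b u v = A (D2 Y (B b) (B u) (B v)) := by
  have hev : ∀ᶠ c in 𝓝 (B b), ContDiffAt ℝ 2 Y c := hY.eventually (by simp)
  have hev' : ∀ᶠ c in 𝓝 b, DifferentiableAt ℝ Y (B c) := by
    have := B.continuous.continuousAt (x := b)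
    exact (this.eventually hev).mono fun c hc => hc.differentiableAt (by norm_num)
  have h1 : fderiv ℝ (fun b => a0 + A (Y (B b))) =ᶠ[𝓝 b]
      fun c => (A.comp (fderiv ℝ Y (B c))).comp B :=
    hev'.mono fun c hc => fderiv_affine A a0 B Y c hc
  have hd : DifferentiableAt ℝ (fderiv ℝ Y) (B b) := by
    have : ContDiffAt ℝ 1 (fderiv ℝ Y) (B b) := hY.fderiv_right (by norm_num)
    exact this.differentiableAt (by norm_num)
  have h2 : HasFDerivAt (fun c => fderiv ℝ Y (B c)) ((fderiv ℝ (fderiv ℝ Y) (B b)).comp B) b :=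
    hd.hasFDerivAt.comp b B.hasFDerivAt
  have h3 : HasFDerivAt (fun c => (A.comp (fderiv ℝ Y (B c))).comp B)
      (((ContinuousLinearMap.compL ℝ E2 E2 E3).flip B).comp
        ((ContinuousLinearMap.compL ℝ E2 E3 E3 A).comp
          ((fderiv ℝ (fderiv ℝ Y) (B b)).comp B))) b :=
    ((ContinuousLinearMap.compL ℝ E2 E2 E3).flip B).hasFDerivAt.comp b
      ((ContinuousLinearMap.compL ℝ E2 E3 E3 A).hasFDerivAt.comp b h2)
  unfold D2
  rw [h1.fderiv_eq, h3.fderiv]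
  rfl

theorem curv_periodic {X : E2 → E3} {c : E2} (h : ∀ b, X (b + c) = X b) (b : E2) :
    curv X (b + c) = curv X b := by
  have h1 : ∀ b, fderiv ℝ X (b + c) = fderiv ℝ X b := by
    intro b
    rw [← fderiv_comp_add_right]
    congr 1
    exact funext h
  have h2 : ∀ b, fderiv ℝ (fderiv ℝ X) (b + c) = fderiv ℝ (fderiv ℝ X) b := by
    intro b
    rw [← fderiv_comp_add_right]
    congr 1
    exact funext h1
  unfold curv sff D2
  simp only [h1, h2]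

/-- the diagonal map -/
noncomputable def diag3 (x y z : ℝ) : E3 →L[ℝ] E3 :=
  LinearMap.toContinuousLinearMap
    { toFun := fun v => !₂[x * v 0, y * v 1, z * v 2]
      map_add' := by
        intro v w
        ext i
        fin_cases i <;> simp <;> ring
      map_smul' := by
        intro c v
        ext i
        fin_cases i <;> simp <;> ring }

theorem diag3_apply0 (x y z : ℝ) (v : E3) : diag3 x y z v 0 = x * v 0 := rfl
theorem diag3_apply1 (x y z : ℝ) (v : E3) : diag3 x y z v 1 = y * v 1 := rfl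
theorem diag3_apply2 (x y z : ℝ) (v : E3) : diag3 x y z v 2 = z * v 2 := rfl

theorem det3_diag (x y z : ℝ) (a b c : E3) :
    det3 (diag3 x y z a) (diag3 x y z b) (diag3 x y z c) = x * y * z * det3 a b c := by
  unfold det3
  simp only [diag3_apply0, diag3_apply1, diag3_apply2]
  ring

noncomputable def diag2 (x y : ℝ) : E2 →L[ℝ] E2 :=
  LinearMap.toContinuousLinearMap
    { toFun := fun v => !₂[x * v 0, y * v 1]
      map_add' := by
        intro v w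
        ext i
        fin_cases i <;> simp <;> ring
      map_smul' := by
        intro c v
        ext i
        fin_cases i <;> simp <;> ring }

theorem diag2_apply0 (x y : ℝ) (v : E2) : diag2 x y v 0 = x * v 0 := rfl
theorem diag2_apply1 (x y : ℝ) (v : E2) : diag2 x y v 1 = y * v 1 := rfl

theorem diag2_e2_0 (x y : ℝ) : diag2 x y (e2 0) = x • e2 0 := by
  ext i
  fin_cases i
  · show x * (e2 0 : E2) 0 = x * (e2 0 : E2) 0
    rfl
  · show y * (e2 0 : E2) 1 = x * (e2 0 : E2) 1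
    simp [e2]

theorem diag2_e2_1 (x y : ℝ) : diag2 x y (e2 1) = y • e2 1 := by
  ext i
  fin_cases i
  · show x * (e2 1 : E2) 0 = y * (e2 1 : E2) 0
    simp [e2]
  · show y * (e2 1 : E2) 1 = y * (e2 1 : E2) 1
    rfl

/-- scaling of the curvature -/
theorem curv_scale (x y z s : ℝ) (a0 : E3) (Y : E2 → E3) (b : E2)
    (hY : ContDiffAt ℝ 2 Y (diag2 1 s b)) :
    curv (fun b => a0 + diag3 x y z (Y (diag2 1 s b))) b
      = (x * y * z) ^ 2 * s ^ 4 * curv Y (diag2 1 s b) := by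
  have hd : DifferentiableAt ℝ Y (diag2 1 s b) := hY.differentiableAt (by norm_num)
  have hf := fderiv_affine (diag3 x y z) a0 (diag2 1 s) Y b hd
  have hD := D2_affine (diag3 x y z) a0 (diag2 1 s) Y b hY
  unfold curv sff
  rw [hf]
  simp only [hD, ContinuousLinearMap.comp_apply, det3_diag, diag2_e2_0, diag2_e2_1, one_smul]
  have e1 : ∀ (u : E2) (r : ℝ), D2 Y (diag2 1 s b) u (r • e2 1) = r • D2 Y (diag2 1 s b) u (e2 1) :=
    fun u r => map_smul _ _ _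
  have e2' : ∀ (v : E2) (r : ℝ), D2 Y (diag2 1 s b) (r • e2 1) v = r • D2 Y (diag2 1 s b) (e2 1) v := by
    intro v r
    unfold D2
    rw [map_smul]
    rfl
  have e3 : fderiv ℝ Y (diag2 1 s b) (s • e2 1) = s • fderiv ℝ Y (diag2 1 s b) (e2 1) :=
    map_smul _ _ _
  have e4 : ∀ (r : ℝ) (p q w : E3), det3 p q (r • w) = r * det3 p q w := by
    intro r p q w
    unfold det3
    simp only [PiLp.smul_apply, smul_eq_mul]
    ring
  have e5 : ∀ (r : ℝ) (p q w : E3), det3 p (r • q) w = r * det3 p q w := by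
    intro r p q w
    unfold det3
    simp only [PiLp.smul_apply, smul_eq_mul]
    ring
  simp only [e1, e2', e3, e4, e5]
  ring

theorem continuous_det3 : Continuous (fun z : E3 × E3 × E3 => det3 z.1 z.2.1 z.2.2) := by
  unfold det3
  fun_prop

/-- continuity of the curvature in a family -/
theorem continuousAt_curv {P : Type} [NormedAddCommGroup P] [NormedSpace ℝ P] (G : P → E2 → E3)
    (p : P) (b : E2) (h : ContDiffAt ℝ ∞ (Function.uncurry G) (p, b)) :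
    ContinuousAt (fun z : P × E2 => curv (G z.1) z.2) (p, b) := by
  have h1 : ContDiffAt ℝ ∞ (fun z : P × E2 => fderiv ℝ (G z.1) z.2) (p, b) := by
    refine ContDiffAt.fderiv (f := fun z : P × E2 => G z.1) (g := fun z => z.2) (n := ∞) ?_
      contDiffAt_snd (by norm_num)
    have h2 : ContDiffAt ℝ ∞ (fun y : (P × E2) × E2 => (y.1.1, y.2)) ((p, b), b) :=
      (contDiffAt_fst.fst).prodMk contDiffAt_snd
    exact ContDiffAt.comp (g := Function.uncurry G) ((p, b), b) h h2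
  have h3 : ContDiffAt ℝ ∞ (fun z : P × E2 => fderiv ℝ (fderiv ℝ (G z.1)) z.2) (p, b) := by
    refine ContDiffAt.fderiv (f := fun z : P × E2 => fderiv ℝ (G z.1)) (g := fun z => z.2) (n := ∞) ?_
      contDiffAt_snd (by norm_num)
    have h2 : ContDiffAt ℝ ∞ (fun y : (P × E2) × E2 => (y.1.1, y.2)) ((p, b), b) :=
      (contDiffAt_fst.fst).prodMk contDiffAt_snd
    exact ContDiffAt.comp (g := fun z : P × E2 => fderiv ℝ (G z.1) z.2) ((p, b), b) h1 h2
  have c1 : ∀ (v : E2), ContinuousAt (fun z : P × E2 => fderiv ℝ (G z.1) z.2 v) (p, b) := by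
    intro v
    exact h1.continuousAt.clm_apply continuousAt_const
  have c2 : ∀ (u v : E2), ContinuousAt (fun z : P × E2 => D2 (G z.1) z.2 u v) (p, b) := by
    intro u v
    exact (h3.continuousAt.clm_apply continuousAt_const).clm_apply continuousAt_const
  have c3 : ∀ i j : Fin 2, ContinuousAt (fun z : P × E2 => sff (G z.1) z.2 i j) (p, b) := by
    intro i j
    have h4 : ContinuousAt (fun z : P × E2 => (fderiv ℝ (G z.1) z.2 (e2 0),
        (fderiv ℝ (G z.1) z.2 (e2 1), D2 (G z.1) z.2 (e2 i) (e2 j)))) (p, b) :=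
      (c1 _).prodMk ((c1 _).prodMk (c2 _ _))
    exact ContinuousAt.comp (g := fun z : E3 × E3 × E3 => det3 z.1 z.2.1 z.2.2)
      continuous_det3.continuousAt h4
  exact ((c3 0 0).mul (c3 1 1)).sub ((c3 0 1).pow 2)


/-! ### Explicit derivatives -/

theorem fderiv_coord {X : E2 → E3} {a : E2} (hX : DifferentiableAt ℝ X a) (v : E2) (i : Fin 3) :
    (fderiv ℝ X a v) i = fderiv ℝ (fun b => X b i) a v := by
  let P : E3 →L[ℝ] ℝ := EuclideanSpace.proj i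
  have h2 : HasFDerivAt (fun b => X b i) (P.comp (fderiv ℝ X a)) a :=
    P.hasFDerivAt.comp a hX.hasFDerivAt
  rw [h2.fderiv]
  rfl

theorem fderiv_vec3 {f g h : E2 → ℝ} {f' g' h' : E2 →L[ℝ] ℝ} {a : E2} (hf : HasFDerivAt f f' a)
    (hg : HasFDerivAt g g' a) (hh : HasFDerivAt h h' a) (v : E2) :
    fderiv ℝ (fun b => (!₂[f b, g b, h b] : E3)) a v = !₂[f' v, g' v, h' v] := by
  have hX : DifferentiableAt ℝ (fun b => (!₂[f b, g b, h b] : E3)) a := by
    rw [differentiableAt_euclidean]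
    intro i
    fin_cases i
    · exact hf.differentiableAt
    · exact hg.differentiableAt
    · exact hh.differentiableAt
  ext i
  rw [fderiv_coord hX]
  fin_cases i
  · show fderiv ℝ f a v = f' v
    rw [hf.fderiv]
  · show fderiv ℝ g a v = g' v
    rw [hg.fderiv]
  · show fderiv ℝ h a v = h' v
    rw [hh.fderiv]

theorem D2_eq {X : E2 → E3} {a : E2} (hX : DifferentiableAt ℝ (fderiv ℝ X) a) (u v : E2) :
    D2 X a u v = fderiv ℝ (fun b => fderiv ℝ X b v) a u := by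
  have h := hX.hasFDerivAt.clm_apply (hasFDerivAt_const v a)
  unfold D2
  rw [h.fderiv]
  simp

/-- the coordinate projections of `E2` -/
noncomputable abbrev p0 : E2 →L[ℝ] ℝ := EuclideanSpace.proj 0
noncomputable abbrev p1 : E2 →L[ℝ] ℝ := EuclideanSpace.proj 1

theorem hp0 (a : E2) : HasFDerivAt (fun b : E2 => b 0) p0 a := p0.hasFDerivAt
theorem hp1 (a : E2) : HasFDerivAt (fun b : E2 => b 1) p1 a := p1.hasFDerivAt

theorem p0_e0 : p0 (e2 0) = 1 := by simp [e2]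
theorem p0_e1 : p0 (e2 1) = 0 := by simp [e2]
theorem p1_e0 : p1 (e2 0) = 0 := by simp [e2]
theorem p1_e1 : p1 (e2 1) = 1 := by simp [e2]

/-- the limit surface, the graph of `-C/2` in polar coordinates -/
noncomputable def X0 (b : E2) : E3 :=
  !₂[b 1 * Real.cos (b 0), (-1) * (b 1 * Real.sin (b 0)), (-1 / 2) * (b 1 ^ 3 * Real.sin (3 * b 0))]

theorem contDiff_X0 : ContDiff ℝ ∞ X0 := by
  have h0 : ContDiff ℝ ∞ (fun b : E2 => b 0) := p0.contDiff
  have h1 : ContDiff ℝ ∞ (fun b : E2 => b 1) := p1.contDiff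
  rw [contDiff_euclidean]
  intro i
  fin_cases i
  · exact h1.mul h0.cos
  · exact contDiff_const.mul (h1.mul h0.sin)
  · exact contDiff_const.mul ((h1.pow 3).mul (contDiff_const.mul h0).sin)

theorem h3p0 (a : E2) : HasFDerivAt (fun b : E2 => 3 * b 0) ((3 : ℝ) • p0) a :=
  (hp0 a).const_mul 3

theorem fderiv_X0 (a v : E2) : fderiv ℝ X0 a v =
    !₂[p1 v * Real.cos (a 0) - p0 v * (a 1 * Real.sin (a 0)),
      -(p1 v * Real.sin (a 0)) - p0 v * (a 1 * Real.cos (a 0)),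
      -(p1 v * (3 / 2 * a 1 ^ 2 * Real.sin (3 * a 0))) - p0 v * (3 / 2 * a 1 ^ 3 * Real.cos (3 * a 0))] := by
  have h := fderiv_vec3 ((hp1 a).mul (hp0 a).cos) (((hp1 a).mul (hp0 a).sin).const_mul (-1))
    ((((hp1 a).pow 3).mul (h3p0 a).sin).const_mul (-1 / 2)) v
  refine Eq.trans h ?_
  ext i
  fin_cases i
  · simp
    ring
  · simp
    ring
  · simp
    ring

theorem fderiv_X0_0 (a : E2) : fderiv ℝ X0 a (e2 0) =
    !₂[(-1) * (a 1 * Real.sin (a 0)), (-1) * (a 1 * Real.cos (a 0)),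
      (-3 / 2) * (a 1 ^ 3 * Real.cos (3 * a 0))] := by
  rw [fderiv_X0, p0_e0, p1_e0]
  ext i
  fin_cases i
  · simp
  · simp
  · simp
    ring

theorem fderiv_X0_1 (a : E2) : fderiv ℝ X0 a (e2 1) =
    !₂[Real.cos (a 0), (-1) * Real.sin (a 0), (-3 / 2) * (a 1 ^ 2 * Real.sin (3 * a 0))] := by
  rw [fderiv_X0, p0_e1, p1_e1]
  ext i
  fin_cases i
  · simp
  · simp
  · simp
    ring

theorem diff_fderiv_X0 (a : E2) : DifferentiableAt ℝ (fderiv ℝ X0) a := by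
  have h : ContDiff ℝ 1 (fderiv ℝ X0) := contDiff_X0.fderiv_right (by norm_cast)
  exact h.contDiffAt.differentiableAt (by norm_num)

theorem D2_X0_0 (a u : E2) : D2 X0 a u (e2 0) =
    !₂[-(p1 u * Real.sin (a 0)) - p0 u * (a 1 * Real.cos (a 0)),
      -(p1 u * Real.cos (a 0)) + p0 u * (a 1 * Real.sin (a 0)),
      -(p1 u * (9 / 2 * a 1 ^ 2 * Real.cos (3 * a 0))) + p0 u * (9 / 2 * a 1 ^ 3 * Real.sin (3 * a 0))] := by
  rw [D2_eq (diff_fderiv_X0 a)]
  have h0 : (fun b => fderiv ℝ X0 b (e2 0)) = fun b : E2 =>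
      (!₂[(-1) * (b 1 * Real.sin (b 0)), (-1) * (b 1 * Real.cos (b 0)),
      (-3 / 2) * (b 1 ^ 3 * Real.cos (3 * b 0))] : E3) := funext fderiv_X0_0
  rw [h0]
  have h := fderiv_vec3 (((hp1 a).mul (hp0 a).sin).const_mul (-1))
    (((hp1 a).mul (hp0 a).cos).const_mul (-1))
    ((((hp1 a).pow 3).mul (h3p0 a).cos).const_mul (-3 / 2)) u
  refine Eq.trans h ?_
  ext i
  fin_cases i
  · simp
    ring
  · simp
    ring
  · simp
    ring

theorem D2_X0_1 (a u : E2) : D2 X0 a u (e2 1) =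
    !₂[-(p0 u * Real.sin (a 0)), -(p0 u * Real.cos (a 0)),
      -(p1 u * (3 * a 1 * Real.sin (3 * a 0))) - p0 u * (9 / 2 * a 1 ^ 2 * Real.cos (3 * a 0))] := by
  rw [D2_eq (diff_fderiv_X0 a)]
  have h0 : (fun b => fderiv ℝ X0 b (e2 1)) = fun b : E2 =>
      (!₂[Real.cos (b 0), (-1) * Real.sin (b 0), (-3 / 2) * (b 1 ^ 2 * Real.sin (3 * b 0))] : E3) :=
    funext fderiv_X0_1
  rw [h0]
  have h := fderiv_vec3 (hp0 a).cos ((hp0 a).sin.const_mul (-1))
    ((((hp1 a).pow 2).mul (h3p0 a).sin).const_mul (-3 / 2)) u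
  refine Eq.trans h ?_
  ext i
  fin_cases i
  · simp
    ring
  · simp
    ring
  · simp
    ring

theorem sff_X0_00 (a : E2) : sff X0 a 0 0 = 3 * a 1 ^ 4 * Real.sin (3 * a 0) := by
  unfold sff
  rw [D2_X0_0, fderiv_X0_0, fderiv_X0_1, p0_e0, p1_e0]
  unfold det3
  simp
  have h1 := Real.sin_sq_add_cos_sq (a 0)
  linear_combination (3 * a 1 ^ 4 * Real.sin (3 * a 0)) * h1

theorem sff_X0_01 (a : E2) : sff X0 a 0 1 = -(3 * a 1 ^ 3 * Real.cos (3 * a 0)) := by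
  unfold sff
  rw [D2_X0_1, fderiv_X0_0, fderiv_X0_1, p0_e0, p1_e0]
  unfold det3
  simp
  have h1 := Real.sin_sq_add_cos_sq (a 0)
  linear_combination (-(3 * a 1 ^ 3 * Real.cos (3 * a 0))) * h1

theorem sff_X0_11 (a : E2) : sff X0 a 1 1 = -(3 * a 1 ^ 2 * Real.sin (3 * a 0)) := by
  unfold sff
  rw [D2_X0_1, fderiv_X0_0, fderiv_X0_1, p0_e1, p1_e1]
  unfold det3
  simp
  have h1 := Real.sin_sq_add_cos_sq (a 0)
  linear_combination (-(3 * a 1 ^ 2 * Real.sin (3 * a 0))) * h1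

theorem curv_X0 (a : E2) : curv X0 a = -(9 * a 1 ^ 6) := by
  unfold curv
  rw [sff_X0_00, sff_X0_01, sff_X0_11]
  have h2 := Real.sin_sq_add_cos_sq (3 * a 0)
  linear_combination (-(9 * a 1 ^ 6)) * h2


/-! ### The scaled family -/

noncomputable def Xh (s : ℝ) (b : E2) : ℝ := s * Real.cos (2 * b 0) + b 1 * Real.cos (b 0)
noncomputable def Yh (s : ℝ) (b : E2) : ℝ := s * Real.sin (2 * b 0) - b 1 * Real.sin (b 0)
noncomputable def nh (s : ℝ) (b : E2) : ℝ := Xh s b ^ 2 + Yh s b ^ 2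
noncomputable def ch (s : ℝ) (b : E2) : ℝ := Yh s b ^ 3 - 3 * Xh s b ^ 2 * Yh s b
noncomputable def Th (r s : ℝ) (b : E2) : ℝ := 4 - 3 * (r ^ 2 * nh s b) - r ^ 3 * ch s b
noncomputable def Qh (r s : ℝ) (b : E2) : ℝ := 9 - 3 * (r ^ 2 * nh s b) - 4 * √(Th r s b)
noncomputable def HS (r s : ℝ) (b : E2) : ℝ :=
  -(ch s b + r * (3 * nh s b + r * ch s b) ^ 2 / (2 + √(Th r s b)) ^ 2) / (1 + √(Qh r s b))
noncomputable def xh (s : ℝ) (b : E2) : ℝ := Real.smoothTransition ((nh s b - 1) / 3)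
noncomputable def Hh (r s : ℝ) (b : E2) : ℝ :=
  (1 - xh s b) * (-(ch s b) / 2 - 10 * s ^ 2 * (b 1 * Real.sin (3 * b 0))) + xh s b * HS r s b
noncomputable def Gf (p : ℝ × ℝ) (b : E2) : E3 := !₂[Xh p.2 b, Yh p.2 b, Hh p.1 p.2 b]

section smooth

variable {z : (ℝ × ℝ) × E2}

theorem cd_r : ContDiffAt ℝ ∞ (fun z : (ℝ × ℝ) × E2 => z.1.1) z := contDiffAt_fst.fst
theorem cd_s : ContDiffAt ℝ ∞ (fun z : (ℝ × ℝ) × E2 => z.1.2) z := contDiffAt_fst.snd
theorem cd_u : ContDiffAt ℝ ∞ (fun z : (ℝ × ℝ) × E2 => z.2 0) z :=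
  p0.contDiff.contDiffAt.comp z contDiffAt_snd
theorem cd_t : ContDiffAt ℝ ∞ (fun z : (ℝ × ℝ) × E2 => z.2 1) z :=
  p1.contDiff.contDiffAt.comp z contDiffAt_snd

theorem cd_X : ContDiffAt ℝ ∞ (fun z : (ℝ × ℝ) × E2 => Xh z.1.2 z.2) z :=
  (cd_s.mul (contDiffAt_const.mul cd_u).cos).add (cd_t.mul cd_u.cos)
theorem cd_Y : ContDiffAt ℝ ∞ (fun z : (ℝ × ℝ) × E2 => Yh z.1.2 z.2) z :=
  (cd_s.mul (contDiffAt_const.mul cd_u).sin).sub (cd_t.mul cd_u.sin)
theorem cd_n : ContDiffAt ℝ ∞ (fun z : (ℝ × ℝ) × E2 => nh z.1.2 z.2) z :=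
  (cd_X.pow 2).add (cd_Y.pow 2)
theorem cd_c : ContDiffAt ℝ ∞ (fun z : (ℝ × ℝ) × E2 => ch z.1.2 z.2) z :=
  (cd_Y.pow 3).sub ((contDiffAt_const.mul (cd_X.pow 2)).mul cd_Y)
theorem cd_T : ContDiffAt ℝ ∞ (fun z : (ℝ × ℝ) × E2 => Th z.1.1 z.1.2 z.2) z :=
  (contDiffAt_const.sub (contDiffAt_const.mul ((cd_r.pow 2).mul cd_n))).sub ((cd_r.pow 3).mul cd_c)
theorem cd_Q (hT : 0 < Th z.1.1 z.1.2 z.2) :
    ContDiffAt ℝ ∞ (fun z : (ℝ × ℝ) × E2 => Qh z.1.1 z.1.2 z.2) z :=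
  (contDiffAt_const.sub (contDiffAt_const.mul ((cd_r.pow 2).mul cd_n))).sub
    (contDiffAt_const.mul (cd_T.sqrt hT.ne'))
theorem cd_HS (hT : 0 < Th z.1.1 z.1.2 z.2) (hQ : 0 < Qh z.1.1 z.1.2 z.2) :
    ContDiffAt ℝ ∞ (fun z : (ℝ × ℝ) × E2 => HS z.1.1 z.1.2 z.2) z := by
  have h1 : ContDiffAt ℝ ∞ (fun z : (ℝ × ℝ) × E2 => (2 + √(Th z.1.1 z.1.2 z.2)) ^ 2) z :=
    (contDiffAt_const.add (cd_T.sqrt hT.ne')).pow 2
  have h2 : (2 + √(Th z.1.1 z.1.2 z.2)) ^ 2 ≠ 0 := by positivity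
  have h3 : ContDiffAt ℝ ∞ (fun z : (ℝ × ℝ) × E2 => 1 + √(Qh z.1.1 z.1.2 z.2)) z :=
    contDiffAt_const.add ((cd_Q hT).sqrt hQ.ne')
  have h4 : 1 + √(Qh z.1.1 z.1.2 z.2) ≠ 0 := by positivity
  exact ((cd_c.add ((cd_r.mul (((contDiffAt_const.mul cd_n).add (cd_r.mul cd_c)).pow 2)).div
    h1 h2)).neg).div h3 h4
theorem cd_x : ContDiffAt ℝ ∞ (fun z : (ℝ × ℝ) × E2 => xh z.1.2 z.2) z :=
  Real.smoothTransition.contDiffAt.comp z ((cd_n.sub contDiffAt_const).div_const 3)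
theorem cd_H (hT : 0 < Th z.1.1 z.1.2 z.2) (hQ : 0 < Qh z.1.1 z.1.2 z.2) :
    ContDiffAt ℝ ∞ (fun z : (ℝ × ℝ) × E2 => Hh z.1.1 z.1.2 z.2) z :=
  ((contDiffAt_const.sub cd_x).mul ((cd_c.neg.div_const 2).sub ((contDiffAt_const.mul
    (cd_s.pow 2)).mul (cd_t.mul (contDiffAt_const.mul cd_u).sin)))).add (cd_x.mul (cd_HS hT hQ))

theorem cd_G (hT : 0 < Th z.1.1 z.1.2 z.2) (hQ : 0 < Qh z.1.1 z.1.2 z.2) :
    ContDiffAt ℝ ∞ (Function.uncurry Gf) z := by
  rw [contDiffAt_euclidean]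
  intro i
  fin_cases i
  · exact cd_X
  · exact cd_Y
  · exact cd_H hT hQ

end smooth

theorem ch_zero (b : E2) : ch 0 b = b 1 ^ 3 * Real.sin (3 * b 0) := by
  unfold ch Xh Yh
  rw [Real.sin_three_mul]
  have h := Real.sin_sq_add_cos_sq (b 0)
  have h2 : Real.cos (b 0) ^ 2 = 1 - Real.sin (b 0) ^ 2 := by linarith
  ring_nf
  rw [h2]
  ring

theorem Th_zero (s : ℝ) (b : E2) : Th 0 s b = 4 := by
  unfold Th
  ring

theorem Qh_zero (s : ℝ) (b : E2) : Qh 0 s b = 1 := by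
  unfold Qh
  rw [Th_zero]
  have : √(4 : ℝ) = 2 := by
    rw [show (4 : ℝ) = 2 ^ 2 by norm_num]
    exact Real.sqrt_sq (by norm_num)
  rw [this]
  ring

theorem Gf_zero : Gf (0, 0) = X0 := by
  funext b
  have hH : Hh 0 0 b = (-1 / 2) * (b 1 ^ 3 * Real.sin (3 * b 0)) := by
    unfold Hh HS
    rw [Qh_zero, Real.sqrt_one, ch_zero]
    ring
  unfold Gf X0
  ext i
  fin_cases i
  · show Xh 0 b = b 1 * Real.cos (b 0)
    unfold Xh
    ring
  · show Yh 0 b = (-1) * (b 1 * Real.sin (b 0))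
    unfold Yh
    ring
  · exact hH

theorem nn_pl (x y : ℝ) : nn (pl x y) = x ^ 2 + y ^ 2 := rfl
theorem cc_pl (x y : ℝ) : cc (pl x y) = y ^ 3 - 3 * x ^ 2 * y := rfl

/-- the height of the inner sheet -/
theorem hS_eq (r n c : ℝ) (x : E3) (hn : nn x = r ^ 2 * n) (hc : cc x = r ^ 3 * c)
    (T Q : ℝ) (hT : T = 4 - 3 * (r ^ 2 * n) - r ^ 3 * c) (hQ : Q = 9 - 3 * (r ^ 2 * n) - 4 * √T)
    (hT0 : 0 ≤ T) (hQ0 : 0 ≤ Q) :
    hS x = -1 + r ^ 3 * (-(c + r * (3 * n + r * c) ^ 2 / (2 + √T) ^ 2) / (1 + √Q)) := by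
  have e1 : tt x = T := by
    unfold tt
    rw [hn, hc, hT]
  have e2 : qq x = Q := by
    unfold qq
    rw [hn, e1, hQ]
  unfold hS
  rw [e2]
  have hsT : 0 ≤ √T := Real.sqrt_nonneg _
  have hsQ : 0 ≤ √Q := Real.sqrt_nonneg _
  have h1 : √T ^ 2 = T := Real.sq_sqrt hT0
  have h2 : √Q ^ 2 = Q := Real.sq_sqrt hQ0
  have h3 : (2 + √T) ≠ 0 := by positivity
  have h4 : (1 + √Q) ≠ 0 := by positivity
  -- e = 2 - √T
  have h5 : r ^ 2 * (3 * n + r * c) = (2 - √T) * (2 + √T) := by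
    have : (2 - √T) * (2 + √T) = 4 - √T ^ 2 := by ring
    rw [this, h1, hT]
    ring
  have h6 : r ^ 4 * ((3 * n + r * c) ^ 2 / (2 + √T) ^ 2) = (2 - √T) ^ 2 := by
    have : r ^ 4 * ((3 * n + r * c) ^ 2 / (2 + √T) ^ 2)
        = (r ^ 2 * (3 * n + r * c)) ^ 2 / (2 + √T) ^ 2 := by ring
    rw [this, h5]
    field_simp
  have h7 : Q = 1 + r ^ 3 * c + (2 - √T) ^ 2 := by
    have : (2 - √T) ^ 2 = 4 - 4 * √T + √T ^ 2 := by ring
    rw [this, h1, hQ]
    nth_rewrite 3 [hT]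
    ring
  have h8 : r ^ 3 * (-(c + r * (3 * n + r * c) ^ 2 / (2 + √T) ^ 2) / (1 + √Q))
      = -(r ^ 3 * c + r ^ 4 * ((3 * n + r * c) ^ 2 / (2 + √T) ^ 2)) / (1 + √Q) := by ring
  rw [h8, h6]
  have h9 : r ^ 3 * c + (2 - √T) ^ 2 = √Q ^ 2 - 1 := by rw [h2]; linarith
  rw [h9]
  field_simp
  ring

theorem floorX_eq (r s : ℝ) (b : E2) (hr : 0 < r) (hT : 0 ≤ Th r s (diag2 1 s b))
    (hQ : 0 ≤ Qh r s (diag2 1 s b)) :
    floorX r (s * r) b = !₂[0, 0, -1] + diag3 r r (r ^ 3) (Gf (r, s) (diag2 1 s b)) := by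
  have e0 : (diag2 1 s b) 0 = b 0 := by rw [diag2_apply0, one_mul]
  have e1 : (diag2 1 s b) 1 = s * b 1 := diag2_apply1 1 s b
  have eX : s * r * xiX b = r * Xh s (diag2 1 s b) := by
    unfold Xh xiX
    rw [e0, e1]
    ring
  have eY : s * r * xiY b = r * Yh s (diag2 1 s b) := by
    unfold Yh xiY
    rw [e0, e1]
    ring
  have en : nn (pl (s * r * xiX b) (s * r * xiY b)) = r ^ 2 * nh s (diag2 1 s b) := by
    rw [nn_pl, eX, eY]
    unfold nh
    ring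
  have ec : cc (pl (s * r * xiX b) (s * r * xiY b)) = r ^ 3 * ch s (diag2 1 s b) := by
    rw [cc_pl, eX, eY]
    unfold ch
    ring
  have eχ : chi r (nn (pl (s * r * xiX b) (s * r * xiY b))) = xh s (diag2 1 s b) := by
    unfold chi xh
    rw [en]
    congr 2
    field_simp
  have eS := hS_eq r (nh s (diag2 1 s b)) (ch s (diag2 1 s b)) _ en ec (Th r s (diag2 1 s b))
    (Qh r s (diag2 1 s b)) rfl rfl hT hQ
  have eH : floorH r (s * r) b = -1 + r ^ 3 * Hh r s (diag2 1 s b) := by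
    unfold floorH
    rw [eχ, ec, eS]
    unfold Hh HS
    rw [e0, e1]
    ring
  ext i
  fin_cases i
  · show s * r * xiX b = 0 + r * Xh s (diag2 1 s b)
    rw [eX, zero_add]
  · show s * r * xiY b = 0 + r * Yh s (diag2 1 s b)
    rw [eY, zero_add]
  · exact eH


/-! ### Compactness and the final choice -/

theorem Gf_periodic (p : ℝ × ℝ) (k : ℤ) (b : E2) :
    Gf p (b + (2 * Real.pi * k) • e2 0) = Gf p b ∧
      Th p.1 p.2 (b + (2 * Real.pi * k) • e2 0) = Th p.1 p.2 b ∧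
      Qh p.1 p.2 (b + (2 * Real.pi * k) • e2 0) = Qh p.1 p.2 b := by
  have e0 : (b + (2 * Real.pi * k) • e2 0) 0 = b 0 + k * (2 * Real.pi) := by
    simp [e2]
    ring
  have e1 : (b + (2 * Real.pi * k) • e2 0) 1 = b 1 := by simp [e2]
  have c1 : Real.cos (b 0 + k * (2 * Real.pi)) = Real.cos (b 0) := Real.cos_add_int_mul_two_pi _ _
  have s1 : Real.sin (b 0 + k * (2 * Real.pi)) = Real.sin (b 0) := Real.sin_add_int_mul_two_pi _ _
  have c2 : Real.cos (2 * (b 0 + k * (2 * Real.pi))) = Real.cos (2 * b 0) := by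
    have : 2 * (b 0 + k * (2 * Real.pi)) = 2 * b 0 + ((2 * k : ℤ) : ℝ) * (2 * Real.pi) := by
      push_cast
      ring
    rw [this]
    exact Real.cos_add_int_mul_two_pi _ _
  have s2 : Real.sin (2 * (b 0 + k * (2 * Real.pi))) = Real.sin (2 * b 0) := by
    have : 2 * (b 0 + k * (2 * Real.pi)) = 2 * b 0 + ((2 * k : ℤ) : ℝ) * (2 * Real.pi) := by
      push_cast
      ring
    rw [this]
    exact Real.sin_add_int_mul_two_pi _ _
  have s3 : Real.sin (3 * (b 0 + k * (2 * Real.pi))) = Real.sin (3 * b 0) := by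
    have : 3 * (b 0 + k * (2 * Real.pi)) = 3 * b 0 + ((3 * k : ℤ) : ℝ) * (2 * Real.pi) := by
      push_cast
      ring
    rw [this]
    exact Real.sin_add_int_mul_two_pi _ _
  have hX : ∀ s, Xh s (b + (2 * Real.pi * k) • e2 0) = Xh s b := by
    intro s
    unfold Xh
    rw [e0, e1, c1, c2]
  have hY : ∀ s, Yh s (b + (2 * Real.pi * k) • e2 0) = Yh s b := by
    intro s
    unfold Yh
    rw [e0, e1, s1, s2]
  have hn : ∀ s, nh s (b + (2 * Real.pi * k) • e2 0) = nh s b := by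
    intro s
    unfold nh
    rw [hX, hY]
  have hc : ∀ s, ch s (b + (2 * Real.pi * k) • e2 0) = ch s b := by
    intro s
    unfold ch
    rw [hX, hY]
  have hT : ∀ r s, Th r s (b + (2 * Real.pi * k) • e2 0) = Th r s b := by
    intro r s
    unfold Th
    rw [hn, hc]
  have hQ : ∀ r s, Qh r s (b + (2 * Real.pi * k) • e2 0) = Qh r s b := by
    intro r s
    unfold Qh
    rw [hn, hT]
  have hx : ∀ s, xh s (b + (2 * Real.pi * k) • e2 0) = xh s b := by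
    intro s
    unfold xh
    rw [hn]
  have hH : ∀ r s, Hh r s (b + (2 * Real.pi * k) • e2 0) = Hh r s b := by
    intro r s
    unfold Hh HS
    rw [hn, hc, hT, hQ, hx, e0, e1, s3]
  refine ⟨?_, hT _ _, hQ _ _⟩
  unfold Gf
  rw [hX, hY, hH]

/-- the property of the parameters at one point -/
def Pr (p : ℝ × ℝ) (b : E2) : Prop :=
  0 < Th p.1 p.2 b ∧ 0 < Qh p.1 p.2 b ∧ curv (Gf p) b < 0

theorem ev_Pr (b : E2) (hb : b 1 ≠ 0) :
    ∀ᶠ z : (ℝ × ℝ) × E2 in 𝓝 (((0, 0) : ℝ × ℝ), b), Pr z.1 z.2 := by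
  have hT : (0 : ℝ) < Th ((((0, 0) : ℝ × ℝ), b) : (ℝ × ℝ) × E2).1.1
      ((((0, 0) : ℝ × ℝ), b) : (ℝ × ℝ) × E2).1.2 ((((0, 0) : ℝ × ℝ), b) : (ℝ × ℝ) × E2).2 := by
    show (0 : ℝ) < Th 0 0 b
    rw [Th_zero]
    norm_num
  have hQ : (0 : ℝ) < Qh ((((0, 0) : ℝ × ℝ), b) : (ℝ × ℝ) × E2).1.1
      ((((0, 0) : ℝ × ℝ), b) : (ℝ × ℝ) × E2).1.2 ((((0, 0) : ℝ × ℝ), b) : (ℝ × ℝ) × E2).2 := by
    show (0 : ℝ) < Qh 0 0 b
    rw [Qh_zero]
    norm_num
  have h1 := (cd_T (z := (((0, 0) : ℝ × ℝ), b))).continuousAt.eventually (lt_mem_nhds hT)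
  have h2 := (cd_Q (z := (((0, 0) : ℝ × ℝ), b)) hT).continuousAt.eventually (lt_mem_nhds hQ)
  have h3 : (fun z : (ℝ × ℝ) × E2 => curv (Gf z.1) z.2) (((0, 0) : ℝ × ℝ), b) < 0 := by
    show curv (Gf (0, 0)) b < 0
    rw [Gf_zero, curv_X0]
    have : 0 < b 1 ^ 6 := by positivity
    linarith
  have h4 := (continuousAt_curv Gf ((0, 0) : ℝ × ℝ) b (cd_G hT hQ)).eventually (gt_mem_nhds h3)
  filter_upwards [h1, h2, h4] with z a1 a2 a3
  exact ⟨a1, a2, a3⟩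

/-- the compact set of parameters -/
def KK : Set E2 := (fun z : ℝ × ℝ => (!₂[z.1, z.2] : E2)) ''
  (Icc 0 (2 * Real.pi) ×ˢ (Icc (-3) (-(1 / 2)) ∪ Icc (1 / 2) 3))

theorem isCompact_KK : IsCompact KK := by
  refine (isCompact_Icc.prod (isCompact_Icc.union isCompact_Icc)).image ?_
  have h : ContDiff ℝ 0 (fun z : ℝ × ℝ => (!₂[z.1, z.2] : E2)) := by
    rw [contDiff_euclidean]
    intro i
    fin_cases i
    · exact contDiff_fst
    · exact contDiff_snd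
  exact h.continuous

theorem mem_KK {b : E2} (h0 : 0 ≤ b 0) (h1 : b 0 ≤ 2 * Real.pi) (h2 : 1 / 2 ≤ |b 1|)
    (h3 : |b 1| ≤ 3) : b ∈ KK := by
  refine ⟨(b 0, b 1), ⟨⟨h0, h1⟩, ?_⟩, ?_⟩
  · rcases le_total 0 (b 1) with h | h
    · rw [abs_of_nonneg h] at h2 h3
      exact Or.inr ⟨h2, h3⟩
    · rw [abs_of_nonpos h] at h2 h3
      exact Or.inl ⟨by linarith, by linarith⟩
  · ext i
    fin_cases i <;> rfl

theorem ne_of_mem_KK {b : E2} (h : b ∈ KK) : b 1 ≠ 0 := by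
  obtain ⟨z, ⟨_, hz⟩, rfl⟩ := h
  show z.2 ≠ 0
  rcases hz with hz | hz
  · have := hz.2
    intro h0
    rw [h0] at this
    norm_num at this
  · have := hz.1
    intro h0
    rw [h0] at this
    norm_num at this

theorem nh_bounds (s : ℝ) (hs : 0 ≤ s) (b : E2) :
    (|b 1| - s) ^ 2 ≤ nh s b ∧ nh s b ≤ (|b 1| + s) ^ 2 := by
  have h1 : nh s b = s ^ 2 + b 1 ^ 2 + 2 * s * (b 1 * Real.cos (3 * b 0)) := by
    have e : Real.cos (3 * b 0) = Real.cos (2 * b 0) * Real.cos (b 0) - Real.sin (2 * b 0) * Real.sin (b 0) := by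
      rw [← Real.cos_add]
      congr 1
      ring
    rw [e]
    unfold nh Xh Yh
    have a1 := Real.sin_sq_add_cos_sq (b 0)
    have a2 := Real.sin_sq_add_cos_sq (2 * b 0)
    linear_combination b 1 ^ 2 * a1 + s ^ 2 * a2
  have h2 : |b 1 * Real.cos (3 * b 0)| ≤ |b 1| := by
    rw [abs_mul]
    have := Real.abs_cos_le_one (3 * b 0)
    have h0 := abs_nonneg (b 1)
    nlinarith
  have h3 := abs_le.1 h2
  have h4 : b 1 ^ 2 = |b 1| ^ 2 := (sq_abs _).symm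
  rw [h1, h4]
  constructor
  · nlinarith [mul_le_mul_of_nonneg_left h3.1 hs]
  · nlinarith [mul_le_mul_of_nonneg_left h3.2 hs]

theorem trans_holds : TransStatement := by
  have h1 : ∀ᶠ p : ℝ × ℝ in 𝓝 ((0, 0) : ℝ × ℝ), ∀ b ∈ KK, Pr p b :=
    isCompact_KK.eventually_forall_of_forall_eventually (fun b hb => ev_Pr b (ne_of_mem_KK hb))
  obtain ⟨δ, hδ, h2⟩ := Metric.eventually_nhds_iff.1 h1
  obtain ⟨r, hr0, hr1, hr2⟩ : ∃ r : ℝ, 0 < r ∧ r < δ ∧ r ≤ 1 / 100 :=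
    ⟨min (δ / 2) (1 / 100), by positivity, lt_of_le_of_lt (min_le_left _ _) (by linarith),
      min_le_right _ _⟩
  have hP : ∀ b ∈ KK, Pr (r, r) b := by
    refine h2 ?_
    rw [Prod.dist_eq, Real.dist_eq]
    simp only [sub_zero, abs_of_pos hr0, max_self]
    exact hr1
  have hP' : ∀ b : E2, 1 ≤ nh r b → nh r b ≤ 4 → Pr (r, r) b := by
    intro b hb1 hb2
    obtain ⟨n1, n2⟩ := nh_bounds r hr0.le b
    have hab := abs_nonneg (b 1)
    have a1 : 1 / 2 ≤ |b 1| := by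
      by_contra hcon
      push Not at hcon
      nlinarith
    have a2 : |b 1| ≤ 3 := by
      by_contra hcon
      push Not at hcon
      nlinarith
    -- reduce the angle
    have hpi : 0 < 2 * Real.pi := by positivity
    let k : ℤ := -⌊b 0 / (2 * Real.pi)⌋
    obtain ⟨g1, g2, g3⟩ := Gf_periodic (r, r) k b
    have e0 : (b + (2 * Real.pi * k) • e2 0) 0 = b 0 + k * (2 * Real.pi) := by
      simp [e2]
      ring
    have e1 : (b + (2 * Real.pi * k) • e2 0) 1 = b 1 := by simp [e2]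
    have hk1 : 0 ≤ b 0 + k * (2 * Real.pi) := by
      have hf := Int.floor_le (b 0 / (2 * Real.pi))
      rw [le_div_iff₀ hpi] at hf
      show 0 ≤ b 0 + ((-⌊b 0 / (2 * Real.pi)⌋ : ℤ) : ℝ) * (2 * Real.pi)
      push_cast
      linarith
    have hk2 : b 0 + k * (2 * Real.pi) ≤ 2 * Real.pi := by
      have hf := Int.lt_floor_add_one (b 0 / (2 * Real.pi))
      rw [div_lt_iff₀ hpi] at hf
      show b 0 + ((-⌊b 0 / (2 * Real.pi)⌋ : ℤ) : ℝ) * (2 * Real.pi) ≤ 2 * Real.pi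
      push_cast
      linarith
    have hK : b + (2 * Real.pi * k) • e2 0 ∈ KK :=
      mem_KK (by rw [e0]; exact hk1) (by rw [e0]; exact hk2) (by rw [e1]; exact a1)
        (by rw [e1]; exact a2)
    obtain ⟨q1, q2, q3⟩ := hP _ hK
    refine ⟨by rwa [g2] at q1, by rwa [g3] at q2, ?_⟩
    have hper := curv_periodic (X := Gf (r, r)) (c := (2 * Real.pi * k) • e2 0)
      (fun b => (Gf_periodic (r, r) k b).1) b
    rwa [hper] at q3
  refine ⟨r, r * r, hr0, hr2, by positivity, by nlinarith, ?_⟩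
  intro b hb1 hb2
  -- the radius
  have e0 : (diag2 1 r b) 0 = b 0 := by rw [diag2_apply0, one_mul]
  have e1 : (diag2 1 r b) 1 = r * b 1 := diag2_apply1 1 r b
  have en : nn (floorX r (r * r) b) = r ^ 2 * nh r (diag2 1 r b) := by
    show (r * r * xiX b) ^ 2 + (r * r * xiY b) ^ 2 = _
    unfold nh Xh Yh xiX xiY
    rw [e0, e1]
    ring
  rw [en] at hb1 hb2
  have hr2pos : 0 < r ^ 2 := by positivity
  have hn1 : 1 ≤ nh r (diag2 1 r b) := by
    by_contra hcon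
    push Not at hcon
    nlinarith
  have hn2 : nh r (diag2 1 r b) ≤ 4 := by
    by_contra hcon
    push Not at hcon
    nlinarith
  obtain ⟨hT, hQ, hC⟩ := hP' _ hn1 hn2
  have hT' : 0 < Th r r (diag2 1 r b) := hT
  have hQ' : 0 < Qh r r (diag2 1 r b) := hQ
  -- smoothness at the point
  have hcd : ContDiffAt ℝ ∞ (Gf (r, r)) (diag2 1 r b) := by
    have h3 : ContDiffAt ℝ ∞ (Function.uncurry Gf) ((r, r), diag2 1 r b) := cd_G hT' hQ'
    have h4 : ContDiffAt ℝ ∞ (fun b' : E2 => (((r, r) : ℝ × ℝ), b')) (diag2 1 r b) :=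
      contDiffAt_const.prodMk contDiffAt_id
    exact ContDiffAt.comp (g := Function.uncurry Gf) (diag2 1 r b) h3 h4
  have hcont : ContinuousAt (fun b : E2 => (((r, r) : ℝ × ℝ), diag2 1 r b)) b :=
    continuousAt_const.prodMk (diag2 1 r).continuous.continuousAt
  have hevT : ∀ᶠ b' in 𝓝 b, 0 < Th r r (diag2 1 r b') := by
    have h5 := (cd_T (z := (((r, r) : ℝ × ℝ), diag2 1 r b))).continuousAt
    exact (ContinuousAt.comp (f := fun b : E2 => (((r, r) : ℝ × ℝ), diag2 1 r b)) h5 hcont).eventually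
      (lt_mem_nhds hT')
  have hevQ : ∀ᶠ b' in 𝓝 b, 0 < Qh r r (diag2 1 r b') := by
    have h5 := (cd_Q (z := (((r, r) : ℝ × ℝ), diag2 1 r b)) hT').continuousAt
    exact (ContinuousAt.comp (f := fun b : E2 => (((r, r) : ℝ × ℝ), diag2 1 r b)) h5 hcont).eventually
      (lt_mem_nhds hQ')
  have hev : floorX r (r * r) =ᶠ[𝓝 b]
      fun b' => !₂[0, 0, -1] + diag3 r r (r ^ 3) (Gf (r, r) (diag2 1 r b')) := by
    filter_upwards [hevT, hevQ] with b' t1 t2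
    exact floorX_eq r r b' hr0 t1.le t2.le
  rw [curv_congr hev, curv_scale r r (r ^ 3) r _ _ b (hcd.of_le (by norm_cast))]
  have hpos : 0 < (r * r * r ^ 3) ^ 2 * r ^ 4 := by positivity
  exact mul_neg_of_pos_of_neg hpos hC


end Pool.Agent.Tight.H7
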